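import Mathlib

/-!
A semigroup which is left `2`-nilpotent and right `2`-nilpotent but not
`d`-supernilpotent for any `d`.
-/

namespace Pool.Agent.Results.MP_d3d931_al.NilpotentNotSupernilpotent

/-! ### Higher commutators of congruences of a semigroup -/

/-- The generating matrices of `M(α_1, …, α_n, β)`.  A matrix with rows indexed by
`Fin n → Bool` and two columns indexed by `Bool` is a function
`(Fin n → Bool) → Bool → S`. -/
inductive Gen {S : Type*} [Mul S] {n : ℕ} (α : Fin n → Con S) (β : Con S) :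
    ((Fin n → Bool) → Bool → S) → Prop
  | side (i : Fin n) (a b : S) (h : α i a b) :
      Gen α β (fun ε _ => if ε i = true then b else a)
  | last (a b : S) (h : β a b) :
      Gen α β (fun _ c => if c = true then b else a)

/-- The subsemigroup `M(α_1, …, α_n, β)` of the semigroup of matrices (with entrywise
multiplication) generated by the generating matrices. -/
def matrices {S : Type*} [Mul S] {n : ℕ} (α : Fin n → Con S) (β : Con S) :
    Subsemigroup ((Fin n → Bool) → Bool → S) :=
  Subsemigroup.closure {x | Gen α β x}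

/-- The term condition `C(α_1, …, α_n, β; δ)`: for each matrix, if the two entries of
each row other than the row `(1, …, 1)` are `δ`-related, then so are the two entries of
the row `(1, …, 1)`. -/
def Centralizes {S : Type*} [Mul S] {n : ℕ} (α : Fin n → Con S) (β δ : Con S) : Prop :=
  ∀ x ∈ matrices α β,
    (∀ ε : Fin n → Bool, ε ≠ (fun _ => true) → δ (x ε false) (x ε true)) →
      δ (x (fun _ => true) false) (x (fun _ => true) true)

/-- The `(n+1)`-ary commutator `[α_1, …, α_n, β]`: the least congruence `δ` with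
`C(α_1, …, α_n, β; δ)` (see `comm_isLeast`). -/
noncomputable def comm {S : Type*} [Mul S] {n : ℕ} (α : Fin n → Con S) (β : Con S) : Con S :=
  sInf {δ : Con S | Centralizes α β δ}

/-- The binary commutator `[α, β]`. -/
noncomputable def comm₂ {S : Type*} [Mul S] (α β : Con S) : Con S :=
  comm (fun _ : Fin 1 => α) β

/-- `[1, [1, … [1, 1] … ]]` with `d + 1` copies of `1`. -/
noncomputable def leftSeries (S : Type*) [Mul S] : ℕ → Con S
  | 0 => ⊤
  | d + 1 => comm₂ ⊤ (leftSeries S d)

/-- `[ … [[1, 1], 1], …, 1]` with `d + 1` copies of `1`. -/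
noncomputable def rightSeries (S : Type*) [Mul S] : ℕ → Con S
  | 0 => ⊤
  | d + 1 => comm₂ (rightSeries S d) ⊤

/-- Left `d`-nilpotence. -/
def LeftNilpotent (S : Type*) [Mul S] (d : ℕ) : Prop := leftSeries S d = ⊥

/-- Right `d`-nilpotence. -/
def RightNilpotent (S : Type*) [Mul S] (d : ℕ) : Prop := rightSeries S d = ⊥

/-- `d`-supernilpotence: `[1, …, 1] = 0` with `d + 1` copies of `1`. -/
def Supernilpotent (S : Type*) [Mul S] (d : ℕ) : Prop :=
  comm (fun _ : Fin d => (⊤ : Con S)) ⊤ = ⊥

/-- The infimum in the definition of the commutator is attained. -/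
theorem comm_isLeast {S : Type*} [Mul S] {n : ℕ} (α : Fin n → Con S) (β : Con S) :
    IsLeast {δ : Con S | Centralizes α β δ} (comm α β) := by
  refine ⟨?_, fun δ hδ => sInf_le hδ⟩
  intro x hx h δ hδ
  exact hδ x hx (fun ε hε => h ε hε δ hδ)

theorem comm_le {S : Type*} [Mul S] {n : ℕ} {α : Fin n → Con S} {β δ : Con S}
    (h : Centralizes α β δ) : comm α β ≤ δ := (comm_isLeast α β).2 h

/-! ### The semigroup -/

/-- Data of an element, ignoring the twin bit. -/
@[ext] structure Dat where
  fst : Bool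
  lst : Bool
  s : ℕ
  r : ℕ
  g : ℕ
  h : ℕ
  deriving DecidableEq

/-- Validity of the data. -/
def Dat.Ok (x : Dat) : Prop :=
  (x.fst = true → 1 ≤ x.s) ∧ (x.lst = true → 1 ≤ x.r) ∧ x.g ≤ x.s + x.r

/-- The product of data. -/
def Dat.mul (x y : Dat) : Dat :=
  ⟨x.fst, y.lst, x.s + y.s, x.r + y.r, x.g + y.g, x.h + y.h⟩

/-- The special datum. -/
def spec : Dat := ⟨true, true, 1, 1, 1, 0⟩

/-- The semigroup: valid data, the special datum being doubled. -/
@[ext] structure T where
  d : Dat
  bit : Bool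
  ok : d.Ok
  hb : bit = true → d = spec

theorem Dat.mul_ok {x y : Dat} (hx : x.Ok) (hy : y.Ok) : (x.mul y).Ok := by
  obtain ⟨h1, h2, h3⟩ := hx
  obtain ⟨k1, k2, k3⟩ := hy
  refine ⟨fun h => ?_, fun h => ?_, ?_⟩
  · have := h1 h
    simp only [Dat.mul]; omega
  · have := k2 h
    simp only [Dat.mul]; omega
  · simp only [Dat.mul]; omega

instance : Mul T where
  mul x y :=
    { d := x.d.mul y.d
      bit := decide (x.d.mul y.d = spec) && decide (x.d.g = 1)
      ok := Dat.mul_ok x.ok y.ok
      hb := fun h => by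
        simp only [Bool.and_eq_true, decide_eq_true_eq] at h
        exact h.1 }

theorem mul_d (x y : T) : (x * y).d = x.d.mul y.d := rfl

theorem mul_bit (x y : T) :
    (x * y).bit = true ↔ x.d.mul y.d = spec ∧ x.d.g = 1 := by
  show (decide (x.d.mul y.d = spec) && decide (x.d.g = 1)) = true ↔ _
  rw [Bool.and_eq_true, decide_eq_true_eq, decide_eq_true_eq]

theorem Dat.mul_assoc (x y z : Dat) : (x.mul y).mul z = x.mul (y.mul z) := by
  ext <;> simp [Dat.mul, Nat.add_assoc]

instance : Semigroup T where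
  mul_assoc x y z := by
    have hd : ((x * y) * z).d = (x * (y * z)).d := by
      simp only [mul_d]; exact Dat.mul_assoc _ _ _
    refine T.ext hd (Bool.eq_iff_iff.2 ?_)
    rw [mul_bit, mul_bit, mul_d, mul_d, Dat.mul_assoc]
    by_cases h : x.d.mul (y.d.mul z.d) = spec
    · have hx := x.ok
      have hy := y.ok
      have hz := z.ok
      obtain ⟨h1, h2, h3⟩ := hx
      obtain ⟨k1, k2, k3⟩ := hy
      obtain ⟨l1, l2, l3⟩ := hz
      simp only [Dat.mul, spec, Dat.mk.injEq] at h
      obtain ⟨e1, e2, e3, e4, e5, e6⟩ := h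
      have h4 := h1 e1
      have h5 := l2 e2
      have h6 : y.d.g = 0 := by omega
      simp [Dat.mul, h6]
    · simp [h]

/-- Products depend only on the data. -/
theorem mul_congr_d {x y x' y' : T} (h : x.d = x'.d) (k : y.d = y'.d) : x * y = x' * y' := by
  have hd : (x * y).d = (x' * y').d := by rw [mul_d, mul_d, h, k]
  refine T.ext hd (Bool.eq_iff_iff.2 ?_)
  rw [mul_bit, mul_bit, h, k]

/-- Equality of data. -/
def κ : Con T where
  r x y := x.d = y.d
  iseqv := ⟨fun _ => rfl, fun h => h.symm, fun h k => h.trans k⟩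
  mul' h k := by
    show (_ * _ : T).d = (_ * _ : T).d
    rw [mul_d, mul_d, h, k]

theorem κ_iff (x y : T) : κ x y ↔ x.d = y.d := Iff.rfl

/-! ### The commutator `[1, 1]` lies below `κ` -/

/-- The invariant of matrices in `M(1, 1)`. -/
def Inv (x : (Fin 1 → Bool) → Bool → T) : Prop :=
  ((∀ ε, (x ε false).d.fst = (x ε true).d.fst) ∨
      (∀ ε ε' c, (x ε c).d.fst = (x ε' c).d.fst)) ∧
  ((∀ ε, (x ε false).d.lst = (x ε true).d.lst) ∨
      (∀ ε ε' c, (x ε c).d.lst = (x ε' c).d.lst)) ∧
  (∀ ε ε', (x ε false).d.s + (x ε' true).d.s = (x ε true).d.s + (x ε' false).d.s) ∧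
  (∀ ε ε', (x ε false).d.r + (x ε' true).d.r = (x ε true).d.r + (x ε' false).d.r) ∧
  (∀ ε ε', (x ε false).d.g + (x ε' true).d.g = (x ε true).d.g + (x ε' false).d.g) ∧
  (∀ ε ε', (x ε false).d.h + (x ε' true).d.h = (x ε true).d.h + (x ε' false).d.h)

theorem inv_mem {x : (Fin 1 → Bool) → Bool → T}
    (hx : x ∈ matrices (fun _ : Fin 1 => (⊤ : Con T)) ⊤) : Inv x := by
  induction hx using Subsemigroup.closure_induction with
  | mem x hx =>
    cases hx with
    | side i a b h =>
      refine ⟨Or.inl fun _ => rfl, Or.inl fun _ => rfl, ?_, ?_, ?_, ?_⟩ <;>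
        intro ε ε' <;> exact Nat.add_comm _ _ ▸ rfl
    | last a b h =>
      refine ⟨Or.inr fun _ _ _ => rfl, Or.inr fun _ _ _ => rfl, ?_, ?_, ?_, ?_⟩ <;>
        intro ε ε' <;> exact Nat.add_comm _ _
  | mul x y _ _ ihx ihy =>
    obtain ⟨x1, x2, x3, x4, x5, x6⟩ := ihx
    obtain ⟨y1, y2, y3, y4, y5, y6⟩ := ihy
    refine ⟨x1, y2, ?_, ?_, ?_, ?_⟩ <;> intro ε ε' <;>
      simp only [Pi.mul_apply, mul_d, Dat.mul]
    · have := x3 ε ε'; have := y3 ε ε'; omega
    · have := x4 ε ε'; have := y4 ε ε'; omega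
    · have := x5 ε ε'; have := y5 ε ε'; omega
    · have := x6 ε ε'; have := y6 ε ε'; omega

theorem comm_top_le : comm₂ (⊤ : Con T) ⊤ ≤ κ := by
  refine comm_le fun x hx h => ?_
  obtain ⟨x1, x2, x3, x4, x5, x6⟩ := inv_mem hx
  have hne : (fun _ : Fin 1 => false) ≠ (fun _ => true) := fun h => by
    have := congrFun h 0
    exact Bool.noConfusion this
  have h0 := h (fun _ => false) hne
  rw [κ_iff] at h0 ⊢
  have e3 := x3 (fun _ => true) (fun _ => false)
  have e4 := x4 (fun _ => true) (fun _ => false)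
  have e5 := x5 (fun _ => true) (fun _ => false)
  have e6 := x6 (fun _ => true) (fun _ => false)
  rw [h0] at e3 e4 e5 e6
  refine Dat.ext ?_ ?_ (by omega) (by omega) (by omega) (by omega)
  · rcases x1 with x1 | x1
    · exact x1 _
    · rw [x1 _ (fun _ => false) false, x1 _ (fun _ => false) true, h0]
  · rcases x2 with x2 | x2
    · exact x2 _
    · rw [x2 _ (fun _ => false) false, x2 _ (fun _ => false) true, h0]

/-! ### `[1, β] = 0` and `[β, 1] = 0` for `β ≤ κ` -/

theorem comm_left {β : Con T} (hβ : β ≤ κ) : comm₂ ⊤ β = ⊥ := by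
  refine le_bot_iff.1 (comm_le fun x hx h => ?_)
  have hne : (fun _ : Fin 1 => false) ≠ (fun _ => true) := fun h => by
    have := congrFun h 0
    exact Bool.noConfusion this
  have key : (∀ ε, (x ε false).d = (x ε true).d) ∧
      (x (fun _ => false) false = x (fun _ => false) true →
        x (fun _ => true) false = x (fun _ => true) true) := by
    clear h
    induction hx using Subsemigroup.closure_induction with
    | mem x hx =>
      cases hx with
      | side i a b h => exact ⟨fun _ => rfl, fun _ => rfl⟩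
      | last a b h => exact ⟨fun _ => hβ h, fun h => h⟩
    | mul x y _ _ ihx ihy =>
      exact ⟨fun ε => by
          simp only [Pi.mul_apply, mul_d]
          rw [ihx.1 ε, ihy.1 ε],
        fun _ => mul_congr_d (ihx.1 _) (ihy.1 _)⟩
  exact key.2 (h _ hne)

theorem comm_right {β : Con T} (hβ : β ≤ κ) : comm₂ β ⊤ = ⊥ := by
  refine le_bot_iff.1 (comm_le fun x hx h => ?_)
  have hne : (fun _ : Fin 1 => false) ≠ (fun _ => true) := fun h => by
    have := congrFun h 0
    exact Bool.noConfusion this
  have key : (∀ c, (x (fun _ => false) c).d = (x (fun _ => true) c).d) ∧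
      (x (fun _ => false) false = x (fun _ => false) true →
        x (fun _ => true) false = x (fun _ => true) true) := by
    clear h
    induction hx using Subsemigroup.closure_induction with
    | mem x hx =>
      cases hx with
      | side i a b h => exact ⟨fun _ => hβ h, fun _ => rfl⟩
      | last a b h => exact ⟨fun _ => rfl, fun h => h⟩
    | mul x y _ _ ihx ihy =>
      refine ⟨fun c => by
          simp only [Pi.mul_apply, mul_d]
          rw [ihx.1 c, ihy.1 c],
        fun h => ?_⟩
      have e1 : (x * y) (fun _ => false) false = (x * y) (fun _ => true) false :=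
        mul_congr_d (ihx.1 _) (ihy.1 _)
      have e2 : (x * y) (fun _ => false) true = (x * y) (fun _ => true) true :=
        mul_congr_d (ihx.1 _) (ihy.1 _)
      rw [← e1, ← e2, h]
  exact key.2 (h _ hne)

theorem leftNilpotent_T : LeftNilpotent T 2 := comm_left comm_top_le

theorem rightNilpotent_T : RightNilpotent T 2 := comm_right comm_top_le

/-! ### `T` is not supernilpotent -/

/-- The left end. -/
def p (b : ℕ) (hb : b ≤ 1) : T :=
  ⟨⟨true, false, 1, 0, b, 0⟩, false, ⟨(fun _ => le_refl _), (fun h => Bool.noConfusion h), hb⟩,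
    (fun h => Bool.noConfusion h)⟩

/-- The right end. -/
def q (b : ℕ) (hb : b ≤ 1) : T :=
  ⟨⟨false, true, 0, 1, b, 0⟩, false, ⟨(fun h => Bool.noConfusion h), (fun _ => le_refl _), hb⟩,
    (fun h => Bool.noConfusion h)⟩

/-- The middle letters. -/
def m (n : ℕ) : T :=
  ⟨⟨false, false, 0, 0, 0, n⟩, false,
    ⟨(fun h => Bool.noConfusion h), (fun h => Bool.noConfusion h), le_refl _⟩,
    (fun h => Bool.noConfusion h)⟩

/-- The product of the left end with the first `k` middle letters. -/
theorem cube_mem (n k : ℕ) (hk : k ≤ n) :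
    ∃ x ∈ matrices (fun _ : Fin n => (⊤ : Con T)) ⊤, ∀ (ε : Fin n → Bool) (c : Bool),
      (x ε c).d = ⟨true, false, 1, 0, if c = true then 0 else 1,
        ∑ i ∈ Finset.range k, if h : i < n then (if ε ⟨i, h⟩ = true then 0 else 1) else 0⟩ := by
  induction k with
  | zero =>
    refine ⟨_, Subsemigroup.subset_closure (Gen.last (p 1 le_rfl) (p 0 (Nat.zero_le _)) trivial),
      fun ε c => ?_⟩
    cases c <;> simp [p]
  | succ k ih =>
    obtain ⟨x, hx, h⟩ := ih (by omega)
    refine ⟨_, Subsemigroup.mul_mem _ hx (Subsemigroup.subset_closure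
      (Gen.side ⟨k, by omega⟩ (m 1) (m 0) trivial)), fun ε c => ?_⟩
    rw [Pi.mul_apply, Pi.mul_apply, mul_d, h, Finset.sum_range_succ, dif_pos (by omega : k < n)]
    by_cases e : ε ⟨k, by omega⟩ = true
    · rw [if_pos e, if_pos e]
      rfl
    · rw [if_neg e, if_neg e]
      rfl

theorem not_supernilpotent (n : ℕ) : ¬ Supernilpotent T n := by
  intro hS
  have hC := (comm_isLeast (fun _ : Fin n => (⊤ : Con T)) ⊤).1
  have hS' : comm (fun _ : Fin n => (⊤ : Con T)) ⊤ = ⊥ := hS
  rw [hS'] at hC
  obtain ⟨x, hx, h⟩ := cube_mem n n le_rfl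
  have hy := Subsemigroup.mul_mem _ hx (Subsemigroup.subset_closure
      (Gen.last (q 0 (Nat.zero_le _)) (q 1 le_rfl) trivial))
  have key := hC _ hy (fun ε hε => ?_)
  · have hb : (x (fun _ => true) false * q 0 (Nat.zero_le _)).bit =
      (x (fun _ => true) true * q 1 le_rfl).bit := congrArg T.bit key
    rw [Bool.eq_iff_iff, mul_bit, mul_bit, h, h] at hb
    have h0 : (∑ i ∈ Finset.range n,
        if h : i < n then (if (fun _ : Fin n => true) ⟨i, h⟩ = true then 0 else 1) else 0) = 0 := by
      refine Finset.sum_eq_zero fun i _ => ?_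
      by_cases hi : i < n
      · rw [dif_pos hi, if_pos rfl]
      · rw [dif_neg hi]
    rw [h0] at hb
    have := (hb.1 ⟨rfl, rfl⟩).2
    exact absurd this (by decide)
  · show x ε false * q 0 (Nat.zero_le _) = x ε true * q 1 le_rfl
    have hd : (x ε false * q 0 (Nat.zero_le _)).d = (x ε true * q 1 le_rfl).d := by
      rw [mul_d, mul_d, h, h]
      rfl
    refine T.ext hd ?_
    have hns : ∀ (c : Bool) (y : T), y.d.h = 0 → ¬ ((x ε c).d.mul y.d = spec) := by
      intro c y hy hh
      have h2 : ((x ε c).d.mul y.d).h = 0 := by rw [hh]; rfl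
      rw [h] at h2
      have h3 : (∑ i ∈ Finset.range n,
        if h : i < n then (if ε ⟨i, h⟩ = true then 0 else 1) else 0) + y.d.h = 0 := h2
      rw [hy, Nat.add_zero, Finset.sum_eq_zero_iff] at h3
      apply hε
      funext i
      have h4 := h3 i.1 (Finset.mem_range.2 i.2)
      rw [dif_pos i.2] at h4
      by_contra h5
      rw [if_neg h5] at h4
      exact absurd h4 (by decide)
    have b1 : (x ε false * q 0 (Nat.zero_le _)).bit = false := by
      rw [Bool.eq_false_iff, Ne, mul_bit]
      exact fun hh => hns _ _ rfl hh.1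
    have b2 : (x ε true * q 1 le_rfl).bit = false := by
      rw [Bool.eq_false_iff, Ne, mul_bit]
      exact fun hh => hns _ _ rfl hh.1
    rw [b1, b2]

/-- **Negative answer to Q2.**  There is a semigroup which is left `2`-nilpotent and right
`2`-nilpotent but not supernilpotent. -/
theorem result :
    ∃ (S : Type) (_ : Semigroup S),
      LeftNilpotent S 2 ∧ RightNilpotent S 2 ∧ ¬ ∃ d : ℕ, Supernilpotent S d :=
  ⟨T, inferInstance, leftNilpotent_T, rightNilpotent_T,
    fun ⟨d, hd⟩ => not_supernilpotent d hd⟩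

end Pool.Agent.Results.MP_d3d931_al.NilpotentNotSupernilpotent
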